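import Pool.Agent.Helper32.PD.Defs

/-! PD-3: connected sets; PD-13c: restriction of a subdivision -/

set_option autoImplicit false

namespace Pool.Agent.Helper32.PD

open Finset
open scoped Classical

variable {V : Type}

theorem conn_union {F : SimpleGraph V} {I S : Finset V} (hI : Conn F I)
    (hS : ∀ s ∈ S, ∃ y ∈ I, F.Adj s y) : Conn F (I ∪ S) := by
  obtain ⟨hne, hcut⟩ := hI
  refine ⟨hne.mono subset_union_left, ?_⟩
  intro T hT hTne hTI
  by_cases h1 : (T ∩ I).Nonempty
  · by_cases h2 : T ∩ I = I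
    · have hIT : I ⊆ T := by
        intro x hx
        rw [← h2] at hx
        exact (mem_inter.mp hx).1
      obtain ⟨z, hz⟩ : ∃ z, z ∈ (I ∪ S) \ T := by
        by_contra hcon
        push Not at hcon
        apply hTI
        apply Finset.Subset.antisymm hT
        intro z hz
        by_contra hzT
        exact hcon z (mem_sdiff.mpr ⟨hz, hzT⟩)
      have hz' := mem_sdiff.mp hz
      have hzS : z ∈ S := by
        rcases mem_union.mp hz'.1 with h | h
        · exact absurd (hIT h) hz'.2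
        · exact h
      obtain ⟨y, hy, hadj⟩ := hS z hzS
      exact ⟨y, hIT hy, z, hz, hadj.symm⟩
    · obtain ⟨x, hx, y, hy, hadj⟩ := hcut (T ∩ I) inter_subset_right h1 h2
      refine ⟨x, (mem_inter.mp hx).1, y, ?_, hadj⟩
      have hy' := mem_sdiff.mp hy
      refine mem_sdiff.mpr ⟨mem_union_left _ hy'.1, fun h => hy'.2 (mem_inter.mpr ⟨h, hy'.1⟩)⟩
  · obtain ⟨t, ht⟩ := hTne
    have hdis : ∀ y ∈ I, y ∉ T := by
      intro y hy hyT
      exact h1 ⟨y, mem_inter.mpr ⟨hyT, hy⟩⟩
    have htS : t ∈ S := by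
      rcases mem_union.mp (hT ht) with h | h
      · exact absurd ht (hdis t h)
      · exact h
    obtain ⟨y, hy, hadj⟩ := hS t htS
    exact ⟨t, ht, y, mem_sdiff.mpr ⟨mem_union_left _ hy, hdis y hy⟩, hadj⟩

theorem conn_erase {F : SimpleGraph V} {I : Finset V} (hI : Conn F I) (h2 : 2 ≤ I.card) :
    ∃ v ∈ I, Conn F (I.erase v) := by
  obtain ⟨x₀, hx₀⟩ := hI.1
  have hne : (I.powerset.filter fun T => T ≠ I ∧ Conn F T).Nonempty := by
    refine ⟨{x₀}, ?_⟩
    simp only [mem_filter, mem_powerset, singleton_subset_iff]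
    refine ⟨hx₀, ?_, ?_⟩
    · intro h
      rw [← h] at h2
      simp at h2
    · refine ⟨singleton_nonempty _, ?_⟩
      intro T hT hTne hTI
      rcases Finset.subset_singleton_iff.mp hT with h | h
      · exact absurd h hTne.ne_empty
      · exact absurd h hTI
  obtain ⟨T, hT, hmax⟩ := Finset.exists_max_image _ (fun T : Finset V => T.card) hne
  simp only [mem_filter, mem_powerset] at hT
  obtain ⟨hTI, hTne, hTc⟩ := hT
  obtain ⟨x, hx, y, hy, hadj⟩ := hI.2 T hTI hTc.1 hTne
  have hy' := mem_sdiff.mp hy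
  have hc : Conn F (T ∪ {y}) := by
    apply conn_union hTc
    intro s hs
    rw [mem_singleton] at hs
    subst hs
    exact ⟨x, hx, hadj.symm⟩
  have hTy : T ∪ {y} = I := by
    by_contra hcon
    have hmem : T ∪ {y} ∈ (I.powerset.filter fun T => T ≠ I ∧ Conn F T) := by
      simp only [mem_filter, mem_powerset]
      exact ⟨union_subset hTI (singleton_subset_iff.mpr hy'.1), hcon, hc⟩
    have := hmax _ hmem
    have hcard : (T ∪ {y}).card = T.card + 1 := by
      rw [card_union_of_disjoint]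
      · simp
      · rw [disjoint_singleton_right]
        exact hy'.2
    omega
  refine ⟨y, hy'.1, ?_⟩
  have : I.erase y = T := by
    rw [← hTy]
    ext z
    simp only [mem_erase, mem_union, mem_singleton]
    constructor
    · rintro ⟨h1, h | h⟩
      · exact h
      · exact absurd h h1
    · intro hz
      exact ⟨fun h => hy'.2 (h ▸ hz), Or.inl hz⟩
  rw [this]
  exact hTc

/-- restriction of a subdivision to a part of the edges -/
theorem SubD.restrict {ι₀ ι₁ ε κ₀ κ₁ η : Type} {F : SimpleGraph V} {a : ε → ι₀} {b : ε → ι₁}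
    {q g : ℕ} {f₀ : ι₀ → V} {f₁ : ι₁ → V} {p : ε → List V} (h : SubD F a b q g f₀ f₁ p)
    (a' : η → κ₀) (b' : η → κ₁) (s₀ : κ₀ → ι₀) (s₁ : κ₁ → ι₁) (s : η → ε)
    (h₀ : Function.Injective s₀) (h₁ : Function.Injective s₁) (hs : Function.Injective s)
    (ha : ∀ e, a (s e) = s₀ (a' e)) (hb : ∀ e, b (s e) = s₁ (b' e)) :
    SubD F a' b' q g (fun i => f₀ (s₀ i)) (fun i => f₁ (s₁ i)) (fun e => p (s e)) where
  inj₀ := h.inj₀.comp h₀
  inj₁ := h.inj₁.comp h₁
  ne := fun i j => h.ne _ _
  indep₀ := fun i j => h.indep₀ _ _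
  indep₁ := fun i j => h.indep₁ _ _
  indep := fun i j => h.indep _ _
  path := fun e => by
    have := h.path (s e)
    rwa [ha, hb] at this
  len := fun e => h.len _
  far₀ := fun e i hi => h.far₀ (s e) (s₀ i) (by rw [ha]; exact fun hc => hi (h₀ hc))
  far₁ := fun e i hi => h.far₁ (s e) (s₁ i) (by rw [hb]; exact fun hc => hi (h₁ hc))
  anti := fun e e' hee => h.anti _ _ (fun hc => hee (hs hc))

end Pool.Agent.Helper32.PD
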