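import Pool.Agent.Helper32.PD.Defs
import Pool.Agent.Helper48.PM.RamseyEmbed

/-! PD-6: stabilisation -/

set_option autoImplicit false

namespace Pool.Agent.Helper32.PD

open Finset
open scoped Classical

variable {V : Type}

/-- anticomplete leaf families -/
def Anti8 (F : SimpleGraph V) {T : ℕ} (Q : Fin T → Finset V) (f : Fin T → V → V)
    (l l' : Fin T) : Prop :=
  ∀ x ∈ Q l, ∀ y ∈ Q l', ¬ F.Adj (f l x) (f l' y)

/-- coherent leaf families -/
def Coh8 (F : SimpleGraph V) {T : ℕ} (Q : Fin T → Finset V) (f : Fin T → V → V) (c : ℝ)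
    (l l' : Fin T) : Prop :=
  ∀ X ⊆ Q l, ∀ Y ⊆ Q l', c ≤ X.card → c ≤ Y.card → ∃ x ∈ X, ∃ y ∈ Y, F.Adj (f l x) (f l' y)

theorem stab8_aux (F : SimpleGraph V) {T : ℕ} (f : Fin T → V → V) (C : ℝ) (hC : 1 ≤ C) (n : ℕ) :
    ∀ (k : ℕ) (Q : Fin T → Finset V) (ξ : ℝ), 0 < ξ → (∀ l, ξ * n ≤ (Q l).card) →
      (univ.filter fun p : Fin T × Fin T => p.1 ≠ p.2 ∧ ¬ Anti8 F Q f p.1 p.2).card ≤ k →
      ∃ (ξ' : ℝ) (Q' : Fin T → Finset V), ξ / C ^ k ≤ ξ' ∧ ξ' ≤ ξ ∧ (∀ l, Q' l ⊆ Q l) ∧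
        (∀ l, ξ' * n ≤ (Q' l).card) ∧
        ∀ l l', l ≠ l' → Anti8 F Q' f l l' ∨ Coh8 F Q' f (ξ' / C * n) l l' := by
  intro k
  induction k with
  | zero =>
    intro Q ξ hξ hQ hk
    refine ⟨ξ, Q, by simp, le_rfl, fun l => Finset.Subset.refl _, hQ, ?_⟩
    intro l l' hl
    left
    by_contra hcon
    have : (l, l') ∈ (univ.filter fun p : Fin T × Fin T => p.1 ≠ p.2 ∧ ¬ Anti8 F Q f p.1 p.2) := by
      simp [hl, hcon]
    have h0 := Finset.card_pos.mpr ⟨_, this⟩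
    omega
  | succ k ih =>
    intro Q ξ hξ hQ hk
    have hC0 : 0 < C := lt_of_lt_of_le one_pos hC
    by_cases hall : ∀ l l', l ≠ l' → Anti8 F Q f l l' ∨ Coh8 F Q f (ξ / C * n) l l'
    · refine ⟨ξ, Q, ?_, le_rfl, fun l => Finset.Subset.refl _, hQ, hall⟩
      exact div_le_self hξ.le (one_le_pow₀ hC)
    · push Not at hall
      obtain ⟨l, l', hl, hna, hnc⟩ := hall
      unfold Coh8 at hnc
      push Not at hnc
      obtain ⟨X, hX, Y, hY, hXc, hYc, hXY⟩ := hnc
      set Q₁ : Fin T → Finset V := Function.update (Function.update Q l X) l' Y with hQ₁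
      have hsub : ∀ i, Q₁ i ⊆ Q i := by
        intro i
        by_cases h1 : i = l'
        · subst h1
          simpa [hQ₁] using hY
        · by_cases h2 : i = l
          · subst h2
            simpa [hQ₁, h1] using hX
          · simp [hQ₁, h1, h2]
      have hle : ξ / C * n ≤ ξ * n := by
        have : ξ / C ≤ ξ := div_le_self hξ.le hC
        exact mul_le_mul_of_nonneg_right this (Nat.cast_nonneg _)
      have hsz : ∀ i, ξ / C * n ≤ (Q₁ i).card := by
        intro i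
        by_cases h1 : i = l'
        · subst h1
          simpa [hQ₁] using hYc
        · by_cases h2 : i = l
          · subst h2
            simpa [hQ₁, h1] using hXc
          · have := hQ i
            simp only [hQ₁, Function.update_apply, h1, h2, if_false]
            linarith
      have hcard : (univ.filter fun p : Fin T × Fin T => p.1 ≠ p.2 ∧ ¬ Anti8 F Q₁ f p.1 p.2).card
          ≤ k := by
        have hss : (univ.filter fun p : Fin T × Fin T => p.1 ≠ p.2 ∧ ¬ Anti8 F Q₁ f p.1 p.2) ⊂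
            (univ.filter fun p : Fin T × Fin T => p.1 ≠ p.2 ∧ ¬ Anti8 F Q f p.1 p.2) := by
          rw [Finset.ssubset_iff_of_subset]
          · refine ⟨(l, l'), by simp [hl, hna], ?_⟩
            simp only [mem_filter, mem_univ, true_and, not_and, not_not]
            intro _ x hx y hy
            have hx' : x ∈ X := by simpa [hQ₁, hl] using hx
            have hy' : y ∈ Y := by simpa [hQ₁] using hy
            exact hXY x hx' y hy'
          · intro p hp
            simp only [mem_filter, mem_univ, true_and] at hp ⊢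
            refine ⟨hp.1, fun h => hp.2 ?_⟩
            intro x hx y hy
            exact h x (hsub _ hx) y (hsub _ hy)
        have := Finset.card_lt_card hss
        omega
      obtain ⟨ξ', Q', h1, h2, h3, h4, h5⟩ := ih Q₁ (ξ / C) (div_pos hξ hC0) hsz hcard
      refine ⟨ξ', Q', ?_, h2.trans (div_le_self hξ.le hC), fun i => (h3 i).trans (hsub i), h4, h5⟩
      rw [pow_succ']
      rwa [div_div] at h1

theorem stabilise (m : ℕ) (C : ℝ) (hC : 1 ≤ C) : ∃ (T : ℕ) (c₀ : ℝ), 0 < c₀ ∧ c₀ ≤ 1 ∧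
    ∀ (V : Type) (F : SimpleGraph V) (n : ℕ) (Q : Fin T → Finset V) (f : Fin T → V → V)
      (ξ₀ : ℝ), 0 < ξ₀ → (∀ l, ξ₀ * n ≤ (Q l).card) →
      ∃ (ξ : ℝ) (σ : Fin m → Fin T) (Q' : Fin m → Finset V), Function.Injective σ ∧
        c₀ * ξ₀ ≤ ξ ∧ ξ ≤ ξ₀ ∧ (∀ i, Q' i ⊆ Q (σ i)) ∧ (∀ i, ξ * n ≤ (Q' i).card) ∧
        ((∀ i j, i ≠ j → ∀ x ∈ Q' i, ∀ y ∈ Q' j, ¬ F.Adj (f (σ i) x) (f (σ j) y)) ∨
          (∀ i j, i ≠ j → ∀ X ⊆ Q' i, ∀ Y ⊆ Q' j, ξ / C * n ≤ X.card → ξ / C * n ≤ Y.card →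
            ∃ x ∈ X, ∃ y ∈ Y, F.Adj (f (σ i) x) (f (σ j) y))) := by
  obtain ⟨T, hT⟩ := Pool.Agent.Helper35.PM.ramsey m
  have hC0 : 0 < C := lt_of_lt_of_le one_pos hC
  refine ⟨T, 1 / C ^ (T * T), by positivity, ?_, ?_⟩
  · exact div_le_self zero_le_one (one_le_pow₀ hC)
  · intro V F n Q f ξ₀ hξ₀ hQ
    obtain ⟨ξ, Q', h1, h2, h3, h4, h5⟩ := stab8_aux F f C hC n (T * T) Q ξ₀ hξ₀ hQ (by
      refine (Finset.card_le_univ _).trans ?_
      simp)
    let G : SimpleGraph (Fin T) :=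
      { Adj := fun l l' => l ≠ l' ∧ Anti8 F Q' f l l'
        symm := ⟨fun l l' h => ⟨h.1.symm, fun x hx y hy hadj => h.2 y hy x hx hadj.symm⟩⟩
        loopless := ⟨fun l h => h.1 rfl⟩ }
    obtain ⟨σ, hσ, hcase⟩ := hT G
    refine ⟨ξ, σ, fun i => Q' (σ i), hσ, ?_, h2, fun i => h3 _, fun i => h4 _, ?_⟩
    · rw [div_mul_eq_mul_div, one_mul]
      exact h1
    · rcases hcase with hcase | hcase
      · left
        intro i j hij x hx y hy
        exact (hcase i j hij).2 x hx y hy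
      · right
        intro i j hij X hX Y hY hXc hYc
        have hne : σ i ≠ σ j := fun h => hij (hσ h)
        rcases h5 (σ i) (σ j) hne with h | h
        · exact absurd ⟨hne, h⟩ (hcase i j hij)
        · exact h X hX Y hY hXc hYc

end Pool.Agent.Helper32.PD
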